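import Mathlib
import Pool.Agent.H186R3.L1One

set_option autoImplicit false

namespace Pool.Agent.Results.MP_e43eb1_co.UnitBall

/-- Every `k`-colouring `c` of `ℤ^n` admits a point `x` and `t` disjointly supported vectors
`u i` of 1-norm `d` such that all `x + ∑ l i • u i` with `∑ |l i| ≤ 1` have the colour of `x`. -/
def BallOne (t k d n : ℕ) : Prop :=
  ∀ c : (Fin n → ℤ) → Fin k,
    ∃ u : Fin t → Fin n → ℤ,
      (∀ i i' : Fin t, i ≠ i' → ∀ j : Fin n, u i j = 0 ∨ u i' j = 0) ∧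
      (∀ i : Fin t, ∑ j : Fin n, |u i j| = (d : ℤ)) ∧
      ∃ x : Fin n → ℤ, ∀ l : Fin t → ℤ, ∑ i : Fin t, |l i| ≤ 1 →
        c (x + ∑ i : Fin t, l i • u i) = c x

/-- The case `r = 1` of the problem, for all `t` and `k`, with an explicit `d`. -/
theorem result (t k : ℕ) : ∃ n : ℕ, BallOne t k (2 * (k + 1) * (k + 2) ^ 2) n := by
  obtain ⟨n, hn⟩ := Pool.Agent.H186R3.L1.ball_one t k
  refine ⟨n, fun c => ?_⟩
  obtain ⟨u, h1, h2, x, h3⟩ := hn c
  refine ⟨u, h1, fun i => ?_, x, fun l hl => h3 l (by simpa using hl)⟩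
  rw [h2 i]; push_cast; ring

end Pool.Agent.Results.MP_e43eb1_co.UnitBall
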